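import Mathlib
import Pool.Agent.Helper975.RDR.Main

/-!
# Independent defect in the algebraic extensions which are `p`-special fields

This is a variant of `Pool.Agent.Helper975.RDR.Main` (proofs copied with changes, by helper739): the
maximal extension `L` constructed there has no extension of degree prime to `p`.
-/

set_option autoImplicit false

universe u

namespace Pool.Agent.Y739.RDR

open Polynomial Pool.Agent.Helper975.RDR

/-- `L` is a `p`-special field: every irreducible polynomial over `L` whose degree is prime to `p`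
is linear -/
def IsSpecial (p : ℕ) (L : Type*) [Field L] : Prop :=
  ∀ g : L[X], Irreducible g → Nat.Coprime g.natDegree p → g.natDegree = 1

section
variable {Ω Γ : Type*} [Field Ω] [LinearOrderedCommGroupWithZero Γ] (v : Valuation Ω Γ)

theorem v_coprime {p : ℕ} (hv : v (p : Ω) < 1) {n : ℕ} (hn : Nat.Coprime n p) :
    v (n : Ω) = 1 := by
  refine le_antisymm (v_nat_le v n) ?_
  by_contra hc
  push Not at hc
  have hcop : IsCoprime (n : ℤ) (p : ℤ) := Nat.isCoprime_iff_coprime.2 hn
  obtain ⟨a, b, hab⟩ := hcop
  have h1 : (1 : Ω) = (a : Ω) * (n : Ω) + (b : Ω) * (p : Ω) := by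
    have := congrArg (Int.cast : ℤ → Ω) hab
    push_cast at this
    exact this.symm
  have h2 : v (1 : Ω) < 1 := by
    rw [h1]
    apply v.map_add_lt
    · rw [map_mul]
      exact mul_lt_one_of_nonneg_of_lt_one_right (v_int_le v a) zero_le hc
    · rw [map_mul]
      exact mul_lt_one_of_nonneg_of_lt_one_right (v_int_le v b) zero_le hv
  rw [map_one] at h2
  exact lt_irrefl _ h2

end

section

variable {K Ω Γ : Type*} [Field K] [Field Ω] [Algebra K Ω] [IsAlgClosed Ω]
  [Algebra.IsAlgebraic K Ω] [LinearOrderedCommGroupWithZero Γ] (v : Valuation Ω Γ)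

/-- `Bad.small` of the library, for all degrees prime to `p` -/
theorem bad_coprime (hv : ∀ (σ : Ω ≃ₐ[K] Ω) (x : Ω), v (σ x) = v x) {p : ℕ} (hp : p.Prime)
    {a e : Ω} {L : IntermediateField K Ω} (hB : Bad v p a e L) {z : Ω}
    (hz : Nat.Coprime (minpoly L z).natDegree p) : v e ^ p < v (a - z ^ p) := by
  by_contra hcon
  push Not at hcon
  have hint : IsIntegral L z := Algebra.IsIntegral.isIntegral z
  have hve1 : v e ^ p ≤ 1 := pow_le_one' hB.he1.le p
  have hvp : v (p : Ω) < 1 := by
    refine lt_of_le_of_lt hB.hp ?_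
    exact pow_lt_one' hB.he1 hp.ne_zero
  set R := (minpoly L z).aroots Ω with hR
  set m := (minpoly L z).natDegree with hm
  have hm0 : 0 < m := minpoly.natDegree_pos hint
  have hvm : v (m : Ω) = 1 := v_coprime v hvp hz
  have hcard : R.card = m := by
    rw [hR, hm, aroots_def, ← natDegree_map (algebraMap L Ω)]
    exact ((IsAlgClosed.splits ((minpoly L z).map (algebraMap L Ω))).natDegree_eq_card_roots).symm
  have hR1 : ∀ z' ∈ R, v (a - z' ^ p) ≤ v e ^ p := by
    intro z' hz'
    obtain ⟨σ, hσ⟩ := exists_conj L hz'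
    have h1 := conj_val v hv L σ (a - z ^ p)
    rw [map_sub, map_pow, hσ] at h1
    have h2 : σ a = a := σ.commutes ⟨a, hB.ha⟩
    rw [h2] at h1
    rw [h1]; exact hcon
  have hR2 : ∀ z' ∈ R, v z' ≤ 1 := by
    intro z' hz'
    have h1 : v (z' ^ p) ≤ 1 := by
      have e1 : z' ^ p = a - (a - z' ^ p) := by ring
      rw [e1]
      exact v.map_sub_le hB.ha1 ((hR1 z' hz').trans hve1)
    rw [map_pow] at h1
    exact (pow_le_one_iff hp.ne_zero).1 h1
  have hsL : R.sum ∈ L := by
    have h1 := (IsAlgClosed.splits ((minpoly L z).map (algebraMap L Ω))).nextCoeff_eq_neg_sum_roots_of_monic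
      ((minpoly.monic hint).map _)
    rw [nextCoeff_map_eq] at h1
    have h2 : R.sum = - algebraMap L Ω (minpoly L z).nextCoeff := by
      rw [h1, neg_neg, hR, aroots_def]
    rw [h2]
    exact neg_mem (minpoly L z).nextCoeff.2
  have hs1 : v R.sum ≤ 1 := ms_sum_le v R 1 hR2
  have k1 : v (R.sum ^ p - (R.map (· ^ p)).sum) ≤ v e ^ p := by
    refine (fr_multiset v hp R 1 hR2).trans ?_
    rw [one_pow, mul_one]; exact hB.hp
  have k2 : v ((R.map (· ^ p)).sum - (m : Ω) * a) ≤ v e ^ p := by
    have := ms_sum_pow v p R a (v e ^ p) hR1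
    rwa [hcard] at this
  have k3 : v (R.sum ^ p - (m : Ω) * a) ≤ v e ^ p := by
    have e1 : R.sum ^ p - (m : Ω) * a = (R.sum ^ p - (R.map (· ^ p)).sum) +
        ((R.map (· ^ p)).sum - (m : Ω) * a) := by ring
    rw [e1]; exact v.map_add_le k1 k2
  have hm0' : (m : Ω) ≠ 0 := by
    intro h0
    rw [h0, map_zero] at hvm
    exact zero_ne_one hvm
  set b := R.sum / m with hb
  have hbL : b ∈ L := L.div_mem hsL (natCast_mem L m)
  have hb1 : v b ≤ 1 := by
    rw [hb, map_div₀, hvm, div_one]; exact hs1
  have e2 : R.sum = m * b := by rw [hb]; field_simp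
  have k4 : v ((m : Ω) * (b ^ p - a)) ≤ v e ^ p := by
    have e3 : (m : Ω) * (b ^ p - a) = (R.sum ^ p - (m : Ω) * a) - ((m : Ω) ^ p - m) * b ^ p := by
      rw [e2]; ring
    rw [e3]
    apply v.map_sub_le k3
    rw [map_mul, map_pow]
    refine le_trans (mul_le_of_le_one_right zero_le (pow_le_one' hb1 p)) ?_
    exact (fermat_val v hp m).trans hB.hp
  rw [map_mul, hvm, one_mul, v.map_sub_swap] at k4
  exact absurd (hB.bad b hbL) (not_lt.2 k4)


omit [IsAlgClosed Ω] in
theorem degree_dvd (L : IntermediateField K Ω) (z b : Ω) (hb : b ∈ ext1 L z) :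
    (minpoly L b).natDegree ∣ (minpoly L z).natDegree := by
  have hint : IsIntegral L z := Algebra.IsIntegral.isIntegral z
  rw [mem_ext1] at hb
  have := IntermediateField.adjoin.finiteDimensional hint
  have h1 : minpoly L b = minpoly L (⟨b, hb⟩ : IntermediateField.adjoin L {z}) :=
    (IntermediateField.minpoly_eq (⟨b, hb⟩ : IntermediateField.adjoin L {z})).symm
  rw [h1, ← IntermediateField.adjoin.finrank hint]
  exact minpoly.degree_dvd (Algebra.IsIntegral.isIntegral _)

/-- Zorn -/
theorem exists_special_bad (hv : ∀ (σ : Ω ≃ₐ[K] Ω) (x : Ω), v (σ x) = v x) {p : ℕ} (hp : p.Prime)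
    {a e : Ω} {L0 : IntermediateField K Ω} (hB0 : Bad v p a e L0) :
    ∃ L : IntermediateField K Ω, Bad v p a e L ∧ Small p L ∧
      (∀ z : Ω, Nat.Coprime (minpoly L z).natDegree p → z ∈ L) ∧
      ∀ b ∈ L, ∃ b' ∈ L, v (a - b' ^ p) < v (a - b ^ p) := by
  have hZ := zorn_le_nonempty₀ {L : IntermediateField K Ω | Bad v p a e L} (by
    intro c hc hchain y hy
    have : Nonempty c := ⟨⟨y, hy⟩⟩
    have hdir : Directed (· ≤ ·) (fun L : c => (L : IntermediateField K Ω)) := hchain.directed
    have hmem : ∀ x, x ∈ (⨆ L : c, (L : IntermediateField K Ω)) ↔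
        ∃ L : c, x ∈ (L : IntermediateField K Ω) := by
      intro x
      rw [← SetLike.mem_coe, IntermediateField.coe_iSup_of_directed hdir, Set.mem_iUnion]
      rfl
    have hyB : Bad v p a e y := hc hy
    refine ⟨⨆ L : c, (L : IntermediateField K Ω), ?_, fun z hz => le_iSup
      (fun L : c => (L : IntermediateField K Ω)) ⟨z, hz⟩⟩
    refine ⟨(hmem a).2 ⟨⟨y, hy⟩, hyB.ha⟩, hyB.ha1, (hmem e).2 ⟨⟨y, hy⟩, hyB.he⟩, hyB.he0, hyB.he1,
      hyB.hp, ?_⟩
    intro b hb
    obtain ⟨L, hL⟩ := (hmem b).1 hb
    exact (hc L.2).bad b hL) L0 hB0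
  obtain ⟨L1, -, hL1max⟩ := hZ
  obtain ⟨L, hL1, hB, hS, hn⟩ := exists_maximal_bad v hv hp hL1max.prop
  refine ⟨L, hB, hS, fun z hz => ?_, hn⟩
  have hBM : Bad v p a e (ext1 L z) := by
    refine ⟨le_ext1 L z hB.ha, hB.ha1, le_ext1 L z hB.he, hB.he0, hB.he1, hB.hp, ?_⟩
    intro b hb
    exact bad_coprime v hv hp hB (Nat.Coprime.coprime_dvd_left (degree_dvd L z b hb) hz)
  exact hL1 (hL1max.le_of_ge hBM (hL1.trans (le_ext1 L z)) (self_mem_ext1 L z))

end

/-- the property of `L` for abstract polynomials -/
theorem special_of {K Ω : Type*} [Field K] [Field Ω] [Algebra K Ω] [IsAlgClosed Ω]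
    [Algebra.IsAlgebraic K Ω] {p : ℕ} {L : IntermediateField K Ω}
    (h : ∀ z : Ω, Nat.Coprime (minpoly L z).natDegree p → z ∈ L) : IsSpecial p L := by
  intro g hg hc
  obtain ⟨z, hz⟩ := IsAlgClosed.exists_aeval_eq_zero Ω g hg.degree_pos.ne'
  have e1 : (minpoly L z).natDegree = g.natDegree := by
    rw [← minpoly.eq_of_irreducible hg hz, natDegree_mul_leadingCoeff_inv _ hg.ne_zero]
  rw [← e1] at hc ⊢
  have hzL : z ∈ L := h z hc
  have e2 : minpoly L z = X - C (⟨z, hzL⟩ : L) := minpoly.eq_X_sub_C Ω (⟨z, hzL⟩ : L)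
  rw [e2, natDegree_X_sub_C]

theorem special_true (K : Type u) [Field K] (A : ValuationSubring K) (hA : A ≠ ⊤)
    (hens : IsHenselianField A)
    (hall : ∀ p : ℕ, p.Prime → CharP (IsLocalRing.ResidueField A) p →
      ∀ (L : Type u) [Field L] [Algebra K L] [Algebra.IsAlgebraic K L], IsSpecial p L →
      ∀ B : ValuationSubring L, B.comap (algebraMap K L) = A → IsIndependentDefectField B) :
    IsRoughlyDeeplyRamified A := by
  intro p hp hres
  by_contra hnot
  have hresv : A.valuation (p : K) < 1 := (R3.charP_residue_iff A p hp).1 hres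
  have hstart := R4.start_data A hA p hp hresv hnot (fun h => R1.drvr_of_dense A hA p hp h)
  obtain ⟨Ab, hAb, -⟩ := hens (AlgebraicClosure K)
  have hv : ∀ (σ : AlgebraicClosure K ≃ₐ[K] AlgebraicClosure K) (x : AlgebraicClosure K),
      Ab.valuation (σ x) = Ab.valuation x := fun σ x =>
    R3.conj_invariant A hens (AlgebraicClosure K) Ab hAb σ x
  have hlt : ∀ x y : K, A.valuation x < A.valuation y ↔
      Ab.valuation (algebraMap K (AlgebraicClosure K) x) <
        Ab.valuation (algebraMap K (AlgebraicClosure K) y) := by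
    intro x y; subst hAb; exact comap_val_lt Ab _ x y
  have hle : ∀ x y : K, A.valuation x ≤ A.valuation y ↔
      Ab.valuation (algebraMap K (AlgebraicClosure K) x) ≤
        Ab.valuation (algebraMap K (AlgebraicClosure K) y) := by
    intro x y; subst hAb; exact comap_val_le Ab _ x y
  have hvp : Ab.valuation (p : AlgebraicClosure K) < 1 := by
    have h1 := (hlt (p : K) 1).1 (by rw [map_one]; exact hresv)
    rwa [map_natCast, map_one, map_one] at h1
  -- characteristic
  have hchar : CharZero K ∨ CharP K p := by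
    exact R4.r4_char A p hp hresv
  -- bad data
  have hBad : ∃ (a e : AlgebraicClosure K) (L : IntermediateField K (AlgebraicClosure K)),
      Bad Ab.valuation p a e L := by
    rcases hstart with ⟨a, e, ha1, he0, he1, hpe, hbad⟩ | ⟨h0, hb⟩
    · refine ⟨algebraMap K _ a, algebraMap K _ e, ⊥, ⟨IntermediateField.algebraMap_mem _ a, ?_,
        IntermediateField.algebraMap_mem _ e, ?_, ?_, ?_, ?_⟩⟩
      · have h1 := (hle a 1).1 (by rw [map_one]; exact ha1)
        rwa [map_one, map_one] at h1
      · exact (_root_.map_ne_zero _).2 he0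
      · have h1 := (hlt e 1).1 (by rw [map_one]; exact he1)
        rwa [map_one, map_one] at h1
      · have h1 := (hle (p : K) (e ^ p)).1 (by rw [map_pow]; exact hpe)
        rwa [map_natCast, map_pow, map_pow] at h1
      · intro b hb
        obtain ⟨k, rfl⟩ := IntermediateField.mem_bot.1 hb
        have h1 := (hlt (e ^ p) (a - k ^ p)).1 (by rw [map_pow]; exact hbad k)
        rwa [map_pow, map_pow, map_sub, map_pow] at h1
    · refine start_two Ab.valuation hv hp hvp ?_ ?_
      · have : CharZero (AlgebraicClosure K) :=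
          charZero_of_injective_algebraMap (algebraMap K (AlgebraicClosure K)).injective
        exact_mod_cast hp.ne_zero
      · intro b hb2
        apply hb b
        apply le_antisymm
        · rw [← map_pow, hle, map_pow, map_pow, map_natCast]; exact hb2.le
        · rw [← map_pow, hle, map_pow, map_pow, map_natCast]; exact hb2.ge
  obtain ⟨a, e, L0, hB0⟩ := hBad
  obtain ⟨L, hB, hSmall, hSpec, hn⟩ := exists_special_bad Ab.valuation hv hp hB0
  have hGood : GoodEta Ab.valuation p L := by
    rcases hchar with h0 | h0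
    · have : CharZero (AlgebraicClosure K) :=
        charZero_of_injective_algebraMap (algebraMap K (AlgebraicClosure K)).injective
      exact kummer_eta Ab.valuation hp hSmall hB hn
    · have : CharP (AlgebraicClosure K) p := charP_of_injective_algebraMap
        (algebraMap K (AlgebraicClosure K)).injective p
      exact as_eta Ab.valuation hp hSmall hB hn
  obtain ⟨η, F, hF, hFd, hFη, hNM, hsep, hroots, hσ⟩ := hGood
  have hGal := galois_of L hFη hsep hroots
  have hfin : Module.finrank L (IntermediateField.adjoin L {η}) = p := by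
    have hint : IsIntegral L η := ⟨F, hF, by rwa [aeval_def] at hFη⟩
    rw [IntermediateField.adjoin.finrank hint]
    exact degree_eta Ab.valuation hSmall hNM hF hFd hFη
  have hLA : (Ab.comap (algebraMap L (AlgebraicClosure K))).comap (algebraMap K L) = A := by
    rw [ValuationSubring.comap_comap]
    exact hAb
  have hIDF := hall p hp hres L (special_of hSpec) (Ab.comap (algebraMap L (AlgebraicClosure K))) hLA
  have hcharL : CharP (IsLocalRing.ResidueField (Ab.comap (algebraMap L (AlgebraicClosure K)))) p := by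
    rw [R3.charP_residue_iff _ p hp]
    have h1 := (comap_val_lt Ab (algebraMap L (AlgebraicClosure K)) (p : L) 1).2 (by
      rw [map_natCast, map_one, map_one]; exact hvp)
    rwa [map_one] at h1
  have hK' : (CharZero L ∧ IsCyclotomicExtension {p} L L) ∨
      (CharP L p ∧ Function.Bijective (algebraMap L L)) := by
    rcases hchar with h0 | h0
    · left
      have hcz : CharZero (AlgebraicClosure K) :=
        charZero_of_injective_algebraMap (algebraMap K (AlgebraicClosure K)).injective
      have hczL : CharZero L := charZero_of_injective_algebraMap (algebraMap K L).injective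
      refine ⟨hczL, ?_⟩
      have hne : ((p : ℕ) : AlgebraicClosure K) ≠ 0 := by exact_mod_cast hp.ne_zero
      have : NeZero ((p : ℕ) : AlgebraicClosure K) := ⟨hne⟩
      obtain ⟨ζ, hζ⟩ := IsAlgClosed.exists_root (cyclotomic p (AlgebraicClosure K)) (by
        rw [degree_cyclotomic]
        have : 0 < Nat.totient p := Nat.totient_pos.2 hp.pos
        exact_mod_cast this.ne')
      have hζ' : IsPrimitiveRoot ζ p := isRoot_cyclotomic_iff.1 hζ
      have hζL : ζ ∈ L := by
        have hp1 : p - 1 ≠ 0 := by have := hp.one_lt; omega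
        apply small_root hSmall (G := cyclotomic p L) (cyclotomic_ne_zero p L)
        · rw [natDegree_cyclotomic, Nat.totient_prime hp]
          have := hp.pos; omega
        · have h1 : aeval ζ (cyclotomic p L) = eval ζ (cyclotomic p (AlgebraicClosure K)) := by
            rw [← map_cyclotomic p (algebraMap L (AlgebraicClosure K)), eval_map_algebraMap]
          rw [h1]; exact hζ
      refine ⟨?_, ?_⟩
      · intro n hn _
        rw [Set.mem_singleton_iff] at hn
        subst hn
        refine ⟨⟨ζ, hζL⟩, ?_⟩
        exact (IsPrimitiveRoot.map_iff_of_injective (f := algebraMap L (AlgebraicClosure K))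
          (algebraMap L (AlgebraicClosure K)).injective).1 hζ'
      · intro x
        exact (Algebra.adjoin L _).algebraMap_mem x
    · right
      have : CharP L p := charP_of_injective_algebraMap (algebraMap K L).injective p
      exact ⟨this, Function.bijective_id⟩
  have hfinal := hIDF p hp hcharL L hK' (Ab.comap (algebraMap L (AlgebraicClosure K))) rfl
    (IntermediateField.adjoin L {η}) hfin
    (Ab.comap (algebraMap (IntermediateField.adjoin L {η}) (AlgebraicClosure K))) rfl ?_ ?_
  · exact not_independent Ab hp hSmall hNM hF hFd hFη hσ _ rfl _ rfl hfinal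
  · intro C hC
    have i1 : Algebra.IsAlgebraic L (AlgebraicClosure K) :=
      Algebra.IsAlgebraic.tower_top (K := K) L
    have i2 : Algebra.IsAlgebraic L (IntermediateField.adjoin L {η}) := inferInstance
    have i3 : Algebra.IsAlgebraic K (IntermediateField.adjoin L {η}) :=
      Algebra.IsAlgebraic.trans K L (IntermediateField.adjoin L {η})
    obtain ⟨D, hD, hDu⟩ := hens (IntermediateField.adjoin L {η})
    have h1 : C = D := by
      apply hDu
      have : algebraMap K (IntermediateField.adjoin L {η}) =
          (algebraMap L (IntermediateField.adjoin L {η})).comp (algebraMap K L) := rfl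
      rw [this, ← ValuationSubring.comap_comap, hC]
      exact hLA
    have h2 : Ab.comap (algebraMap (IntermediateField.adjoin L {η}) (AlgebraicClosure K)) = D := by
      apply hDu
      rw [ValuationSubring.comap_comap]
      exact hAb
    rw [h1, h2]
  · apply R2.defect_gt_one _ p hp hfin
    intro f hf
    obtain ⟨g, hg, hgf⟩ := exists_poly hp.pos hF hFd hFη f.2
    have hf0 : aeval η g ≠ 0 := by
      rw [hgf]
      intro h0
      exact hf (Subtype.ext h0)
    obtain ⟨l, hl, hlt'⟩ := approx Ab.valuation hSmall hNM hg hf0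
    refine ⟨⟨l, hl⟩, ?_⟩
    rw [comap_val_lt]
    rw [hgf] at hlt'
    exact hlt'

end Pool.Agent.Y739.RDR
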