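import Mathlib
import Pool.Agent.Y739.RDR.Special

/-!
# The finite extensions of a `p`-special field have degree a power of `p` (helper739)
-/

set_option autoImplicit false

universe u v

namespace Pool.Agent.Y739.RDR

open Polynomial Module Pool.Agent.Helper975.RDR

/-- the separable case -/
theorem pow_of_sep {p : ℕ} (hp : p.Prime) (L : Type u) [Field L] (h : IsSpecial p L)
    (M : Type v) [Field M] [Algebra L M] [FiniteDimensional L M] [Algebra.IsSeparable L M] :
    ∃ k : ℕ, finrank L M = p ^ k := by
  classical
  haveI := Fact.mk hp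
  let Ω := SeparableClosure M
  have hsep : Algebra.IsSeparable L Ω := Algebra.IsSeparable.trans L M Ω
  have hcl : IsSepClosure L Ω := ⟨inferInstance, hsep⟩
  have hGal : IsGalois L Ω := IsSepClosure.isGalois
  let N := IntermediateField.normalClosure L M Ω
  have hN : IsGalois L N := IsGalois.normalClosure L M Ω
  have hfin : FiniteDimensional L N := normalClosure.is_finiteDimensional L M Ω
  have hdvd : finrank L M ∣ finrank L N := ⟨_, (finrank_mul_finrank L M N).symm⟩
  let P : Sylow p (N ≃ₐ[L] N) := default
  let E0 := IntermediateField.fixedField (P : Subgroup (N ≃ₐ[L] N))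
  have e1 : finrank E0 N = Nat.card (P : Subgroup (N ≃ₐ[L] N)) :=
    IntermediateField.finrank_fixedField_eq_card _
  have e2 : finrank L E0 * finrank E0 N = finrank L N := finrank_mul_finrank L E0 N
  have e3 : Nat.card (N ≃ₐ[L] N) = finrank L N := IsGalois.card_aut_eq_finrank L N
  have e4 := (P : Subgroup (N ≃ₐ[L] N)).index_mul_card
  have hcard : 0 < Nat.card (P : Subgroup (N ≃ₐ[L] N)) := Nat.card_pos
  have e5 : finrank L E0 = (P : Subgroup (N ≃ₐ[L] N)).index := by
    apply Nat.eq_of_mul_eq_mul_right hcard
    rw [e4, e3, ← e2, e1]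
  have hidx : ¬ p ∣ (P : Subgroup (N ≃ₐ[L] N)).index := P.not_dvd_index
  have hsep0 : Algebra.IsSeparable L E0 := Algebra.isSeparable_tower_bot_of_isSeparable L E0 N
  obtain ⟨α, hα⟩ := Field.exists_primitive_element L E0
  have e6 : (minpoly L α).natDegree = finrank L E0 :=
    (Field.primitive_element_iff_minpoly_natDegree_eq L α).1 hα
  have e7 : (minpoly L α).natDegree = 1 := by
    apply h _ (minpoly.irreducible (Algebra.IsIntegral.isIntegral α))
    rw [e6, e5]
    exact ((Nat.Prime.coprime_iff_not_dvd hp).2 hidx).symm
  obtain ⟨n, hn⟩ := (IsPGroup.iff_card).1 P.2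
  have e8 : finrank L N = p ^ n := by
    rw [← e2, ← e6, e7, one_mul, e1]
    exact hn
  rw [e8] at hdvd
  obtain ⟨k, -, hk⟩ := (Nat.dvd_prime_pow hp).1 hdvd
  exact ⟨k, hk⟩

/-- the general case -/
theorem pow_of_special {p : ℕ} (hp : p.Prime) (L : Type u) [Field L] (hc : CharZero L ∨ CharP L p)
    (h : IsSpecial p L) (M : Type v) [Field M] [Algebra L M] [FiniteDimensional L M] :
    ∃ k : ℕ, finrank L M = p ^ k := by
  rcases hc with hc | hc
  · have : Algebra.IsSeparable L M := inferInstance
    exact pow_of_sep hp L h M
  · haveI : ExpChar L p := ExpChar.prime hp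
    let S := separableClosure L M
    obtain ⟨a, ha⟩ := pow_of_sep hp L h S
    haveI : ExpChar S p := expChar_of_injective_algebraMap (algebraMap L S).injective p
    obtain ⟨b, hb⟩ := IsPurelyInseparable.finrank_eq_pow (F := S) (E := M) p
    refine ⟨a + b, ?_⟩
    rw [← finrank_mul_finrank L S M, ha, hb, pow_add]

/-- A henselian field is roughly deeply ramified if those of its algebraic extensions whose finite
extensions have degree a power of `p` are independent defect fields. -/
theorem ppow_true (K : Type u) [Field K] (A : ValuationSubring K) (hA : A ≠ ⊤)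
    (hens : IsHenselianField A)
    (hall : ∀ p : ℕ, p.Prime → CharP (IsLocalRing.ResidueField A) p →
      ∀ (L : Type u) [Field L] [Algebra K L] [Algebra.IsAlgebraic K L],
      (∀ (M : Type u) [Field M] [Algebra L M] [FiniteDimensional L M],
        ∃ k : ℕ, finrank L M = p ^ k) →
      ∀ B : ValuationSubring L, B.comap (algebraMap K L) = A → IsIndependentDefectField B) :
    IsRoughlyDeeplyRamified A := by
  refine special_true K A hA hens fun p hp hres L _ _ _ hL B hB => ?_
  have hresv : A.valuation (p : K) < 1 := (R3.charP_residue_iff A p hp).1 hres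
  have hc : CharZero L ∨ CharP L p := by
    rcases R4.r4_char A p hp hresv with h0 | h0
    · exact Or.inl (charZero_of_injective_algebraMap (algebraMap K L).injective)
    · exact Or.inr (charP_of_injective_algebraMap (algebraMap K L).injective p)
  exact hall p hp hres L (fun M _ _ _ => pow_of_special hp L hc hL M) B hB

end Pool.Agent.Y739.RDR
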